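import Pool.Agent.W2helper30.CF.Fin
import Pool.Agent.W2helper30.AN.Ex

/-!
# Cunningham chains whose links are displaced by members of sparse families `c₀ + κ ⌊U f(x₀ + 1 / i)⌋`

The links `c_1(p), …, c_k(p)` of the chain of a prime `p` are replaced by `d_j = c_j(p) + s_j` with integers `s_j ≥ 0`
(so that `d_0 = p` and `d_j = 2 d_{j-1} + 1 + (s_j - 2 s_{j-1})`, `s_0 = 0`); the question is about `s = 0`. For almost all
vectors `s` of a product of very sparse sets (each with as few as `exp ((log N) ^ (2 / 3 + ε))` members) all the exact patterns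
of primes and composites in these chains have the expected frequency among the primes `p ≤ N`; in particular the chains of
exact length `k`.

Method: Vinogradov's mean value method for the sums of `e(θ f(x₀ + 1 / i))` with a uniform saving, and the inequality of
Kusmin and Landau for the small frequencies; a discrete Fejer kernel for the passage to integer parts; so the large spectrum
of the members is thin. The second moment bound for prime pairs in such a situation is from the starting files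
(`Pool.Agent.Y885`); here it is used with one link at a time, the other links being fixed, and the formula for the systems
of linear forms `n, 2 n + H_1, …, 2 ^ k n + H_k` follows with the starting files `Pool.Agent.Y820.LF`. The exact patterns
are obtained from the formula for all the subsystems.
-/

set_option autoImplicit false

namespace Pool.Agent.Results.MP_77cbc6_nt.DisplacedChains

open Finset Filter
open Pool.Agent.W2helper30.AN (Ord Rg vl)
open Pool.Agent.W2helper30.CF (nuT singT exactT PatGood fam_pat nuT_le)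

/-- `f` is real analytic at `x₀`, and `K ≥ 1` is the order of the zero of `f - f x₀` at `x₀` -/
def OrderAt (f : ℝ → ℝ) (x₀ : ℝ) (K : ℕ) : Prop :=
  AnalyticAt ℝ f x₀ ∧ 1 ≤ K ∧ (∀ j : ℕ, 1 ≤ j → j < K → iteratedDeriv j f x₀ = 0) ∧
    iteratedDeriv K f x₀ ≠ 0

/-- the range of the parameters: `M ^ (K + δ₀) ≤ U ≤ exp ((log M) ^ (3 / 2 - ε₀))` -/
def InRange (K : ℕ) (δ₀ ε₀ : ℝ) (M : ℕ) (U : ℝ) : Prop :=
  (M : ℝ) ^ ((K : ℝ) + δ₀) ≤ U ∧ U ≤ Real.exp ((Real.log M) ^ (3 / 2 - ε₀))

/-- The displaced link `2 ^ (j + 1) (n + 1) - 1 + s j` of number `j + 1` of the chain of `n`, `j = 0, …, k - 1`; without the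
displacement it is `c_{j + 1}(n)`. -/
def link {k : ℕ} (s : Fin k → ℤ) (j : Fin k) (n : ℕ) : ℤ := 2 ^ ((j : ℕ) + 1) * ((n : ℤ) + 1) - 1 + s j

/-- The number of the residues `n` modulo `q` such that `q` divides `n` or one of the links of `n` with `j ∈ T`. -/
def nu {k : ℕ} (s : Fin k → ℤ) (T : Finset (Fin k)) (q : ℕ) : ℕ :=
  ((range q).filter (fun n : ℕ => (q : ℤ) ∣ n ∨ ∃ j ∈ T, (q : ℤ) ∣ link s j n)).card

/-- The pattern `T` is admissible: no prime divides `n` times the product of the links of `n` with `j ∈ T` for all `n`. -/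
def Admissible {k : ℕ} (s : Fin k → ℤ) (T : Finset (Fin k)) : Prop := ∀ q : ℕ, q.Prime → nu s T q < q

/-- The partial products of the singular series of the system of `n` and its links with `j ∈ T`. -/
noncomputable def sing {k : ℕ} (s : Fin k → ℤ) (T : Finset (Fin k)) (z : ℕ) : ℝ :=
  ∏ q ∈ (Icc 1 z).filter Nat.Prime, (1 - (nu s T q : ℝ) / q) / (1 - 1 / (q : ℝ)) ^ (T.card + 1)

open Classical in
/-- The number of the primes `p ≤ N` such that the displaced link `j` of `p` is a prime exactly for the `j ∈ T` (for `s j ≥ 0`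
the links are larger than `1`, so that the other links are composite). For `T = {j | j + 1 < k}` these are the `p ≤ N` which
start a displaced chain of exact length `k`. -/
noncomputable def exact {k : ℕ} (s : Fin k → ℤ) (T : Finset (Fin k)) (N : ℕ) : ℕ :=
  ((Icc 1 N).filter (fun p : ℕ => p.Prime ∧ ∀ j, (link s j p).toNat.Prime ↔ j ∈ T)).card

/-- The pattern `T` has the expected frequency up to a factor within `ε` of `1`: the singular series `S` converges, `S ≥ c`,
and the number of the primes `p ≤ N` with exactly this pattern of prime links is within `ε S N / (log N) ^ (#T + 1)` of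
`S N / (log N) ^ (#T + 1)`. -/
def Expected {k : ℕ} (c ε : ℝ) (N : ℕ) (s : Fin k → ℤ) (T : Finset (Fin k)) : Prop :=
  ∃ S : ℝ, c ≤ S ∧ Tendsto (sing s T) atTop (nhds S) ∧
    |(exact s T N : ℝ) - S * (N / Real.log N ^ (T.card + 1))| ≤ ε * (S * (N / Real.log N ^ (T.card + 1)))

/-- the coefficients -/
def qc (k : ℕ) : Fin k → ℕ := fun j => 2 ^ ((j : ℕ) + 1)

/-- the constants -/
def bc (k : ℕ) : Fin k → ℤ := fun j => 2 ^ ((j : ℕ) + 1) - 1

lemma link_eq {k : ℕ} (s : Fin k → ℤ) (j : Fin k) (n : ℕ) :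
    link s j n = (qc k j : ℤ) * (n : ℤ) + (bc k j + s j) := by
  unfold link qc bc
  push_cast
  ring

lemma nu_eq {k : ℕ} (s : Fin k → ℤ) (T : Finset (Fin k)) (q : ℕ) :
    nu s T q = nuT (qc k) (fun j => bc k j + s j) T q := by
  unfold nu nuT
  simp only [link_eq]

lemma sing_eq {k : ℕ} (s : Fin k → ℤ) (T : Finset (Fin k)) : sing s T = singT (qc k) (fun j => bc k j + s j) T := by
  funext z
  unfold sing singT
  simp only [nu_eq]

lemma exact_eq {k : ℕ} (s : Fin k → ℤ) (T : Finset (Fin k)) (N : ℕ) :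
    exact s T N = exactT (qc k) (fun j => bc k j + s j) T N := by
  unfold exact exactT
  simp only [link_eq]

/-- if all the displacements are divisible by the primes up to `k + 1`, all the patterns are admissible -/
lemma adm {k : ℕ} (s : Fin k → ℤ) (h : ∀ j, ∀ q : ℕ, q.Prime → q ≤ k + 1 → (q : ℤ) ∣ s j) (T : Finset (Fin k)) :
    Admissible s T := by
  classical
  intro q hq
  rcases Nat.lt_or_ge (k + 1) q with h1 | h1
  · rcases Nat.eq_zero_or_pos k with h0 | h0
    · subst h0
      rw [nu_eq]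
      refine lt_of_le_of_lt (nuT_le _ _ T q hq (fun j => j.elim0)) ?_
      have : T.card ≤ 0 := (card_le_univ T).trans (by simp)
      omega
    · rw [nu_eq]
      have h2 : ∀ j : Fin k, ¬ (q : ℤ) ∣ (qc k j : ℤ) := by
        intro j hd
        have h3 : q ∣ 2 ^ ((j : ℕ) + 1) := by
          have h4 : (q : ℤ) ∣ ((2 ^ ((j : ℕ) + 1) : ℕ) : ℤ) := hd
          exact_mod_cast h4
        have h5 := (Nat.prime_dvd_prime_iff_eq hq Nat.prime_two).1 (hq.dvd_of_dvd_pow h3)
        omega
      refine lt_of_le_of_lt (nuT_le _ _ T q hq h2) ?_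
      have : T.card ≤ k := (card_le_univ T).trans (by rw [Fintype.card_fin])
      omega
  · -- the residue `-1`
    unfold nu
    have hq2 := hq.two_le
    have h2 : q - 1 ∉ (range q).filter (fun n : ℕ => (q : ℤ) ∣ n ∨ ∃ j ∈ T, (q : ℤ) ∣ link s j n) := by
      rw [mem_filter, not_and]
      rintro - (h3 | ⟨j, -, h3⟩)
      · have h4 : q ∣ q - 1 := by exact_mod_cast h3
        have := Nat.le_of_dvd (by omega) h4
        omega
      · have h4 : (((q - 1 : ℕ) : ℤ) + 1) = q := by
          have : (q - 1) + 1 = q := by omega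
          exact_mod_cast this
        unfold link at h3
        rw [h4] at h3
        have h5 : (q : ℤ) ∣ 1 := by
          have h6 := h j q hq h1
          have h7 : (q : ℤ) ∣ 2 ^ ((j : ℕ) + 1) * (q : ℤ) := dvd_mul_left _ _
          have h8 : (1 : ℤ) = 2 ^ ((j : ℕ) + 1) * (q : ℤ) + s j - (2 ^ ((j : ℕ) + 1) * (q : ℤ) - 1 + s j) := by ring
          rw [h8]
          exact dvd_sub (dvd_add h7 h6) h3
        have h6 : q ∣ 1 := by exact_mod_cast h5
        have := Nat.le_of_dvd one_pos h6
        omega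
    have h3 : ((range q).filter (fun n : ℕ => (q : ℤ) ∣ n ∨ ∃ j ∈ T, (q : ℤ) ∣ link s j n)).card < (range q).card := by
      apply card_lt_card
      rw [ssubset_iff_of_subset (filter_subset _ _)]
      exact ⟨q - 1, mem_range.2 (by omega), h2⟩
    rwa [card_range] at h3

open Classical in
/-- **(1)** For every `k ≥ 1` there is `c > 0` with the following property. For `j < k` let `f j` be real analytic at `x j`,
let `K j` be the order of `f j - f j (x j)` at `x j`, and let `κ j ≠ 0`; let `δ₀ > 0`, `0 < ε₀ < 1 / 2`, `ε > 0`, `B`, `W` and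
`r` be fixed. Then for all large `M j`, all real `U j` with `M j ^ (K j + δ₀) ≤ U j ≤ exp ((log M j) ^ (3 / 2 - ε₀))`, all
integers `N` with `U j / M j ^ K j ≤ B N` and `N ≤ (U j / M j ^ K j) log ^ r U j` for all `j`, and all integers `c₀ j` with
`|c₀ j + κ j U j f j (x j)| ≤ B N`: all the vectors `(i j)` with `M j < i j ≤ 2 M j`, with at most
`∏ M j / (log N) ^ W` exceptions, are such that, if the displacements `s j = c₀ j + κ j ⌊U j f j (x j + 1 / i j)⌋` are not
negative, then every nonempty admissible pattern `T` of prime links has the expected frequency, up to a factor within `ε` of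
`1`, in the displaced chains of the primes `p ≤ N`.

**(2)** All the patterns are admissible if all the displacements are divisible by all the primes up to `k + 1` (for example,
if all the `c₀ j` and `κ j` are). So, for `k ≥ 2`, almost all the vectors of the product of such families are such that the
number of the primes `p ≤ N` which start a displaced chain of exact length `k` is `S N / (log N) ^ k` up to a factor within
`ε` of `1`.

**(3)** Part (1) applies to all functions which are real analytic at `x₀` and not constant near `x₀`, with a suitable `K`,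
and with `K = 1` if the derivative at `x₀` is not zero; for example, to `f x = x`, `x₀ = 0`: the integers
`c₀ + κ ⌊U / i⌋`. -/
theorem result :
    (∀ k : ℕ, 1 ≤ k → ∃ c : ℝ, 0 < c ∧ ∀ (f : Fin k → ℝ → ℝ) (x : Fin k → ℝ) (K : Fin k → ℕ), (∀ j, OrderAt (f j) (x j) (K j)) →
      ∀ δ₀ ε₀ : ℝ, 0 < δ₀ → 0 < ε₀ → ε₀ < 1 / 2 → ∀ κ : Fin k → ℤ, (∀ j, κ j ≠ 0) → ∀ (B W r : ℕ) (ε : ℝ), 0 < ε →
      ∃ M₀ : ℕ, ∀ (M : Fin k → ℕ) (U : Fin k → ℝ) (N : ℕ), (∀ j, M₀ ≤ M j) → (∀ j, InRange (K j) δ₀ ε₀ (M j) (U j)) →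
      (∀ j, U j / (M j : ℝ) ^ K j ≤ B * N ∧ (N : ℝ) ≤ U j / (M j : ℝ) ^ K j * Real.log (U j) ^ r) →
      ∀ c₀ : Fin k → ℤ, (∀ j, |(c₀ j : ℝ) + κ j * (U j * f j (x j))| ≤ B * N) →
        (((Fintype.piFinset fun j => Ioc (M j) (2 * M j)).filter (fun i : Fin k → ℕ =>
          ¬ ∀ s : Fin k → ℤ, (∀ j, s j = c₀ j + κ j * ⌊U j * f j (x j + 1 / i j)⌋) → (∀ j, 0 ≤ s j) →
            ∀ T : Finset (Fin k), T.Nonempty → Admissible s T → Expected c ε N s T)).card : ℝ) ≤
          1 / Real.log N ^ W * ∏ j, (M j : ℝ)) ∧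
    (∀ (k : ℕ) (s : Fin k → ℤ), (∀ j, ∀ q : ℕ, q.Prime → q ≤ k + 1 → (q : ℤ) ∣ s j) → ∀ T : Finset (Fin k), Admissible s T) ∧
    (∀ (f : ℝ → ℝ) (x₀ : ℝ), AnalyticAt ℝ f x₀ → (¬ ∀ᶠ x in nhds x₀, f x = f x₀) → ∃ K : ℕ, OrderAt f x₀ K) ∧
    (∀ (f : ℝ → ℝ) (x₀ : ℝ), AnalyticAt ℝ f x₀ → deriv f x₀ ≠ 0 → OrderAt f x₀ 1) ∧
    OrderAt (fun x => x) 0 1 := by
  refine ⟨fun k hk => ?_, fun k s h T => adm s h T,
    fun f x₀ h1 h2 => Pool.Agent.W2helper30.AN.ord_exists h1 h2,
    fun f x₀ h1 h2 => Pool.Agent.W2helper30.AN.ord_one h1 h2,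
    Pool.Agent.W2helper30.AN.ord_one (by fun_prop) (by simp)⟩
  obtain ⟨c, hc, hfam⟩ := fam_pat k (2 ^ k) hk
  refine ⟨c, hc, fun f x K hf δ₀ ε₀ hδ₀ hε₀ hε₀2 κ hκ B W r ε hε => ?_⟩
  have hf' : ∀ j, Ord (f j) (x j) (K j) := hf
  obtain ⟨M₀, h1⟩ := hfam f x K hf' δ₀ ε₀ hδ₀ hε₀ hε₀2 κ hκ (qc k)
    (fun j => ⟨Nat.one_le_two_pow, Nat.pow_le_pow_right (by norm_num) (by have := j.2; omega)⟩) (bc k)
    (fun j => by
      unfold bc
      have : (1 : ℤ) ≤ 2 ^ ((j : ℕ) + 1) := one_le_pow₀ (by norm_num)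
      linarith) r B W ε hε
  refine ⟨M₀, fun M U N hM hU hN c₀ hc₀ => ?_⟩
  have h2 := h1 M U N hM (fun j => ⟨(hU j).1, (hU j).2⟩) (fun j => (hN j).1) (fun j => (hN j).2) c₀ hc₀
  refine le_trans (Nat.cast_le.2 (card_le_card fun i hi => ?_)) h2
  simp only [mem_filter] at hi ⊢
  refine ⟨hi.1, ?_⟩
  have hi2 := hi.2
  push Not at hi2
  obtain ⟨s, hs, hs0, T, hT, hTadm, hTbad⟩ := hi2
  have hvs : ∀ j, s j = c₀ j + κ j * vl (f j) (x j) (U j) (i j) := hs
  refine ⟨fun j => by rw [← hvs]; exact hs0 j, fun hgood => hTbad ?_⟩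
  have hfun : (fun j => bc k j + (c₀ j + κ j * vl (f j) (x j) (U j) (i j))) = fun j => bc k j + s j := by
    funext j
    rw [hvs]
  rw [hfun] at hgood
  obtain ⟨S, g1, g2, g3⟩ := hgood T hT (fun q hq => by
    rw [← nu_eq]
    exact hTadm q hq)
  refine ⟨S, g1, ?_, ?_⟩
  · rw [sing_eq]
    exact g2
  · rw [exact_eq]
    exact g3

end Pool.Agent.Results.MP_77cbc6_nt.DisplacedChains
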