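import Pool.Agent.W2helper64.HT.Main

/-!
# One infinite set of times, all subsets of which are exact patterns of primes, for all affine maps at once

Let `c_j(p) = 2 ^ j (p + 1) - 1`; the question is about primes at the times `0, 1, ..., k - 1` followed by a
composite number. Every infinite set `V` of times contains an infinite set `B` with the following property.

For ALL affine maps `z ↦ a z + b` (`a ≥ 2`, `b` prime to `a`), all moduli `q` and all residues `r` there is a number `K`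
such that EVERY finite or infinite set `I ⊆ B` of times `t ≥ K`, which is compatible with the class `r` modulo `q`
(the value at the time `t` of the orbit of `r` is prime to `q`), is an exact pattern: for every `R` there are
infinitely many `n ≡ r` modulo `q` such that the times `t ≤ R` at which the orbit of `n` is prime are exactly the
elements of `I` up to `R`. The set `B` does not depend on the map, the modulus and the class.

For `a = 2`, `b = 1`: for every nonempty `I ⊆ B` of times `t ≥ K`, with least element `t₀`, and every `R` there are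
infinitely many primes `p` for which `c_j(p)`, `0 ≤ j ≤ R`, is prime exactly if `t₀ + j ∈ I`, and which are not
`c_j(p')` for any prime `p'` and `1 ≤ j ≤ t₀` (all these primes are complete chains of exact length one, if `B` has no
two consecutive elements).

Proof: the infinite exact pattern theorem of the starting files (`Pool.Agent.H361R2.Inf.exact_infinite`), Ellentuck's
theorem and a diagonal argument over all maps and classes (`Pool.Agent.W68.Her.main_forms`).
-/

set_option autoImplicit false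

namespace Pool.Agent.Results.MP_77cbc6_nt.HereditaryTimes

/-- the value at the time `t` of the orbit of `z` under the map `x ↦ a x + b` -/
def orbit (a b z : ℤ) (t : ℕ) : ℤ := (fun x => a * x + b)^[t] z

theorem orbit_first (n : ℤ) (t : ℕ) : orbit 2 1 n t = 2 ^ t * (n + 1) - 1 := by
  induction t with
  | zero => simp [orbit]
  | succ t ih =>
    unfold orbit at ih ⊢
    rw [Function.iterate_succ_apply', ih]
    ring

/-- **Hereditary sets of times.** -/
theorem result (V : Set ℕ) (hV : V.Infinite) : ∃ B ⊆ V, B.Infinite ∧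
    -- all affine maps and all progressions
    (∀ a b : ℤ, 2 ≤ a → IsCoprime a b → ∀ q r : ℤ, 1 ≤ q → ∃ K : ℕ, ∀ I ⊆ B,
      (∀ t ∈ I, K ≤ t ∧ IsCoprime (orbit a b r t) q) → ∀ R : ℕ,
        {n : ℕ | (n : ℤ) ≡ r [ZMOD q] ∧ ∀ t ≤ R, ((orbit a b n t).toNat.Prime ↔ t ∈ I)}.Infinite) ∧
    -- Cunningham chains of the first kind
    (∃ K : ℕ, ∀ I ⊆ B, (∀ t ∈ I, K ≤ t) → ∀ t₀ ∈ I, (∀ t ∈ I, t₀ ≤ t) → ∀ R : ℕ,
      {p : ℕ | p.Prime ∧ (∀ j ≤ R, ((2 ^ j * (p + 1) - 1).Prime ↔ t₀ + j ∈ I)) ∧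
        ∀ j : ℕ, 1 ≤ j → j ≤ t₀ → ¬ ∃ p' : ℕ, p'.Prime ∧ 2 ^ j * (p' + 1) - 1 = p}.Infinite) := by
  obtain ⟨B, hBV, hB, h⟩ := Pool.Agent.W2helper64.HT.main V hV
  refine ⟨B, hBV, hB, h, ?_⟩
  obtain ⟨K, hK⟩ := h 2 1 le_rfl isCoprime_one_right 1 0 le_rfl
  refine ⟨K, fun I hI hIK t₀ ht₀ hmin R => ?_⟩
  have h1 := hK I hI (fun t ht => ⟨hIK t ht, isCoprime_one_right⟩) (t₀ + R)
  have hinj : Set.InjOn (fun n : ℕ => 2 ^ t₀ * (n + 1) - 1) {n : ℕ | (n : ℤ) ≡ 0 [ZMOD 1] ∧
      ∀ t ≤ t₀ + R, ((orbit 2 1 n t).toNat.Prime ↔ t ∈ I)} := by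
    intro m _ m' _ hmm
    simp only at hmm
    have e1 : 1 ≤ 2 ^ t₀ * (m + 1) := Nat.mul_pos (by positivity) (by omega)
    have e2 : 1 ≤ 2 ^ t₀ * (m' + 1) := Nat.mul_pos (by positivity) (by omega)
    have e3 : 2 ^ t₀ * (m + 1) = 2 ^ t₀ * (m' + 1) := by omega
    have e4 := Nat.eq_of_mul_eq_mul_left (by positivity) e3
    omega
  have h1' : {n : ℕ | (n : ℤ) ≡ 0 [ZMOD 1] ∧
      ∀ t ≤ t₀ + R, ((orbit 2 1 n t).toNat.Prime ↔ t ∈ I)}.Infinite := h1
  refine (h1'.image hinj).mono ?_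
  rintro _ ⟨n, ⟨-, hn⟩, rfl⟩
  have hval : ∀ t ≤ t₀ + R, ((2 ^ t * (n + 1) - 1).Prime ↔ t ∈ I) := by
    intro t ht
    rw [← hn t ht, orbit_first]
    have e1 : 1 ≤ 2 ^ t * (n + 1) := Nat.mul_pos (by positivity) (by omega)
    have e2 : ((2 : ℤ) ^ t * ((n : ℤ) + 1) - 1) = ((2 ^ t * (n + 1) - 1 : ℕ) : ℤ) := by
      push_cast [Nat.cast_sub e1]
      ring
    rw [e2, Int.toNat_natCast]
  have hpos : 1 ≤ 2 ^ t₀ * (n + 1) := Nat.mul_pos (by positivity) (by omega)
  refine ⟨(hval t₀ (by omega)).2 ht₀, fun j hj => ?_, ?_⟩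
  · simp only
    rw [← hval (t₀ + j) (by omega)]
    have e1 : 2 ^ j * (2 ^ t₀ * (n + 1) - 1 + 1) - 1 = 2 ^ (t₀ + j) * (n + 1) - 1 := by
      rw [Nat.sub_add_cancel hpos, pow_add]
      congr 1
      ring
    rw [e1]
  · rintro j hj1 hj2 ⟨p', hp', hpe⟩
    simp only at hpe
    have e0 : 1 ≤ 2 ^ j * (p' + 1) := Nat.mul_pos (by positivity) (by omega)
    have e1 : 2 ^ j * (p' + 1) = 2 ^ j * (2 ^ (t₀ - j) * (n + 1)) := by
      rw [← mul_assoc, ← pow_add, show j + (t₀ - j) = t₀ by omega]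
      omega
    have e2 := Nat.eq_of_mul_eq_mul_left (by positivity) e1
    have e3 : p' = 2 ^ (t₀ - j) * (n + 1) - 1 := by omega
    rw [e3, hval (t₀ - j) (by omega)] at hp'
    have := hmin _ hp'
    omega

end Pool.Agent.Results.MP_77cbc6_nt.HereditaryTimes
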