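import Pool.Agent.W2helper62.MC3

/-!
# Chains of every exact length for almost all multipliers

Q1: are there, for every `k`, infinitely many primes `p` for which `c_0 = p, c_1, …, c_{k-1}` are primes and `c_k` is
composite, where `c_{j+1} = 2 c_j + 1`?  We show: for almost every vector `(α_0, …, α_{k-1})` of real multipliers `> 1`
and ALL integers `b_0, …, b_{k-1}`, for the chains `c_0 = p`, `c_{j+1} = ⌊α_j c_j⌋ + b_j` the number of these `p` among the
first `n` primes is asymptotic to `n / (log n)^(k-1)`.  The question is about the vector `α = (2, …, 2)`, `b = (1, …, 1)`.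
The same holds if the chains are started at the members of an ARBITRARY sequence `u_1 < u_2 < …` of positive integers with
`u_i ≤ i (log i)^C`.

Proof: for fixed `α_0, …, α_{j-1}` the values `c_j` form an increasing sequence of integers, and the indices of the
starting values for which `c_1, …, c_j` are primes form an arbitrary set of indices. The second moment over `α_j`
(Plancherel's theorem in the variable `log α_j` and the Fourier transform of the primes in logarithmic coordinates;
project HS of the starting files, `Pool.Agent.N798`, `N999`, `N280`, and `W2helper62.MI`) gives the number of the primes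
`⌊α_j c_j⌋ + b_j` for such sets of indices, and the theorem of Fubini the statement on all the multipliers.
-/

set_option autoImplicit false

namespace Pool.Agent.Results.MP_77cbc6_nt.MetricChains

open Finset MeasureTheory Filter Topology

/-- the chain `c_0 = q`, `c_{j+1} = ⌊α_j c_j⌋ + b_j` for `j < k` (and `c_{j+1} = 0` for `j ≥ k`) -/
noncomputable def c {k : ℕ} (α : Fin k → ℝ) (b : Fin k → ℤ) (q : ℤ) : ℕ → ℤ
  | 0 => q
  | j + 1 => if h : j < k then ⌊α ⟨j, h⟩ * (c α b q j : ℝ)⌋ + b ⟨j, h⟩ else 0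

/-- the numbers `c_s, c_{s+1}, …, c_{m-1}` are primes -/
def AllPrime {k : ℕ} (α : Fin k → ℝ) (b : Fin k → ℤ) (q : ℤ) (s m : ℕ) : Prop :=
  ∀ j : ℕ, s ≤ j → j < m → (c α b q j).toNat.Prime

/-- `c_k` is composite -/
def Composite {k : ℕ} (α : Fin k → ℝ) (b : Fin k → ℤ) (q : ℤ) : Prop :=
  1 < c α b q k ∧ ¬ (c α b q k).toNat.Prime

open Classical in
/-- the number of the `1 ≤ i ≤ n` with the property `P` -/
noncomputable def count (P : ℕ → Prop) (n : ℕ) : ℕ := #((Icc 1 n).filter P)

/-- the `i`-th prime, `p 1 = 2` -/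
noncomputable def p (i : ℕ) : ℕ := Nat.nth Nat.Prime (i - 1)

/-- `u 1 < u 2 < …` are positive integers and `u i ≤ i (log i)^C` for large `i`, for some `C` -/
def Slow (u : ℕ → ℕ) : Prop := (∀ m n, 1 ≤ m → m < n → u m < u n) ∧ 1 ≤ u 1 ∧
  ∃ C n0 : ℕ, ∀ n, n0 ≤ n → (u n : ℝ) ≤ n * (Real.log n) ^ C

open Pool.Agent.W2helper62.MC in
lemma c_eq {k : ℕ} (α : Fin k → ℝ) (b : Fin k → ℤ) (q : ℤ) : ∀ j : ℕ, c α b q j = ch (ex α) (ex b) q j := by
  intro j
  induction j with
  | zero => rfl
  | succ j ih =>
    unfold c ch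
    by_cases h : j < k
    · rw [dif_pos h, ih, ex_lt _ h, ex_lt _ h]
    · rw [dif_neg h]
      unfold ex
      rw [dif_neg h, dif_neg h]
      simp

lemma count_eq (P : ℕ → Prop) (n : ℕ) : count P n = Pool.Agent.W2helper62.MC.cn P n := rfl

open Pool.Agent.W2helper62.MC in
lemma general (u : ℕ → ℕ) (hu : Slow u) (k : ℕ) : ∀ᵐ α : Fin k → ℝ, (∀ j, 1 < α j) → ∀ b : Fin k → ℤ,
    (∀ m ≤ k, Tendsto (fun n : ℕ => (count (fun i => AllPrime α b (u i) 1 (m + 1)) n : ℝ) * (Real.log n) ^ m / n) atTop (𝓝 1)) ∧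
    (1 ≤ k → Tendsto (fun n : ℕ => (count (fun i => AllPrime α b (u i) 1 k ∧ Composite α b (u i)) n : ℝ) *
      (Real.log n) ^ (k - 1) / n) atTop (𝓝 1)) := by
  have hu' : Pool.Agent.N798.HS.Sq u := hu
  filter_upwards [chains u hu' k] with α hα hpos b
  have h1 := hα hpos b
  have e : ∀ (m : ℕ) (i : ℕ), AllPrime α b (u i) 1 (m + 1) ↔ Pr m (ex α) (ex b) u i := by
    intro m i
    unfold AllPrime Pr
    constructor
    · intro h j hj
      rw [← c_eq]
      exact h (j + 1) (by omega) (by omega)
    · intro h j hj1 hj2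
      obtain ⟨j', rfl⟩ : ∃ j', j = j' + 1 := ⟨j - 1, by omega⟩
      rw [c_eq]
      exact h j' (by omega)
  refine ⟨fun m hm => ?_, fun hk => ?_⟩
  · refine (h1 m hm).congr fun n => ?_
    rw [count_eq, cn_congr (fun i _ => e m i) n]
  · obtain ⟨k', rfl⟩ : ∃ k', k = k' + 1 := ⟨k - 1, by omega⟩
    have h2 := exact k' (ex α) (fun j hj => by rw [ex_lt _ hj]; exact hpos _) (ex b) u hu' (h1 k' (by omega)) (h1 (k' + 1) le_rfl)
    rw [Nat.add_sub_cancel]
    refine h2.congr fun n => ?_
    rw [count_eq, cn_congr (fun i _ => ?_) n]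
    unfold Ex Composite
    rw [e k' i, c_eq]

/-- **Chains of every exact length for almost all multipliers.** (1) For every `k ≥ 1`, almost every
`α = (α_0, …, α_{k-1}) ∈ (1, ∞)^k` and all integers `b_0, …, b_{k-1}`: of the first `n` primes `p` asymptotically
`n / (log n)^(k-1)` start a chain `c_0 = p`, `c_{j+1} = ⌊α_j c_j⌋ + b_j` for which `c_0, …, c_{k-1}` are primes and `c_k` is
composite; in particular there are infinitely many such primes. (2) For an ARBITRARY sequence `u_1 < u_2 < …` of
positive integers with `u_i ≤ i (log i)^C`, every `k`, almost every `α ∈ (1, ∞)^k` and all integers `b_j`: for every `m ≤ k`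
the number of the `i ≤ n` such that `c_1, …, c_m` are primes for the chain started at `u_i` is asymptotic to
`n / (log n)^m`, and if `k ≥ 1` the number of the `i ≤ n` such that `c_1, …, c_{k-1}` are primes and `c_k` is composite is
asymptotic to `n / (log n)^(k-1)`. -/
theorem result :
    (∀ k : ℕ, 1 ≤ k → ∀ᵐ α : Fin k → ℝ, (∀ j, 1 < α j) → ∀ b : Fin k → ℤ,
      Tendsto (fun n : ℕ => (count (fun i => AllPrime α b (p i) 0 k ∧ Composite α b (p i)) n : ℝ) *
        (Real.log n) ^ (k - 1) / n) atTop (𝓝 1) ∧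
      {q : ℕ | q.Prime ∧ AllPrime α b q 0 k ∧ Composite α b q}.Infinite) ∧
    (∀ u : ℕ → ℕ, Slow u → ∀ k : ℕ, ∀ᵐ α : Fin k → ℝ, (∀ j, 1 < α j) → ∀ b : Fin k → ℤ,
      (∀ m ≤ k, Tendsto (fun n : ℕ => (count (fun i => AllPrime α b (u i) 1 (m + 1)) n : ℝ) * (Real.log n) ^ m / n)
        atTop (𝓝 1)) ∧
      (1 ≤ k → Tendsto (fun n : ℕ => (count (fun i => AllPrime α b (u i) 1 k ∧ Composite α b (u i)) n : ℝ) *
        (Real.log n) ^ (k - 1) / n) atTop (𝓝 1))) := by
  refine ⟨fun k hk => ?_, general⟩
  have hp : Slow p := Pool.Agent.W2helper62.MI.sq_p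
  filter_upwards [general p hp k] with α hα hpos b
  have h1 := (hα hpos b).2 hk
  have e : ∀ i : ℕ, AllPrime α b (p i) 0 k ↔ AllPrime α b (p i) 1 k := by
    intro i
    unfold AllPrime
    constructor
    · intro h j hj1 hj2
      exact h j (by omega) hj2
    · intro h j _ hj2
      rcases Nat.eq_zero_or_pos j with h0 | h0
      · rw [h0]
        show (((p i : ℕ) : ℤ)).toNat.Prime
        rw [Int.toNat_natCast]
        exact Nat.prime_nth_prime _
      · exact h j h0 hj2
  have h2 : Tendsto (fun n : ℕ => (count (fun i => AllPrime α b (p i) 0 k ∧ Composite α b (p i)) n : ℝ) *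
        (Real.log n) ^ (k - 1) / n) atTop (𝓝 1) := by
    refine h1.congr fun n => ?_
    simp only [e]
  refine ⟨h2, ?_⟩
  -- infinitely many
  by_contra hfin
  rw [Set.not_infinite] at hfin
  obtain ⟨D, hD⟩ : ∃ D : ℕ, ∀ n, count (fun i => AllPrime α b (p i) 0 k ∧ Composite α b (p i)) n ≤ D := by
    refine ⟨hfin.toFinset.card, fun n => ?_⟩
    classical
    rw [count_eq, Pool.Agent.W2helper62.MC.cn_eq, ← card_image_of_injOn (f := p)]
    · refine card_le_card fun q hq => ?_
      rw [mem_image] at hq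
      obtain ⟨i, hi, rfl⟩ := hq
      rw [mem_filter] at hi
      rw [Set.Finite.mem_toFinset]
      exact ⟨Nat.prime_nth_prime _, hi.2.1, hi.2.2⟩
    · intro i hi j hj hij
      rw [mem_coe, mem_filter, mem_Icc] at hi hj
      rcases lt_trichotomy i j with h | h | h
      · exact absurd hij (ne_of_lt (hp.1 i j hi.1.1 h))
      · exact h
      · exact absurd hij.symm (ne_of_lt (hp.1 j i hj.1.1 h))
  have e0 : Tendsto (fun x : ℝ => (Real.log x) ^ (k - 1) / x) atTop (𝓝 0) := by
    have := (isLittleO_log_rpow_rpow_atTop (s := (1 : ℝ)) ((k - 1 : ℕ) : ℝ) (by norm_num)).tendsto_div_nhds_zero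
    refine this.congr fun x => ?_
    rw [Real.rpow_natCast, Real.rpow_one]
  have e1 := (e0.comp tendsto_natCast_atTop_atTop).const_mul (D : ℝ)
  rw [mul_zero] at e1
  have e2 : Tendsto (fun n : ℕ => (count (fun i => AllPrime α b (p i) 0 k ∧ Composite α b (p i)) n : ℝ) *
        (Real.log n) ^ (k - 1) / n) atTop (𝓝 0) := by
    refine squeeze_zero' ?_ ?_ e1
    · filter_upwards [eventually_ge_atTop 1] with n hn
      have hl : 0 ≤ Real.log (n : ℝ) := Real.log_natCast_nonneg n
      positivity
    · filter_upwards [eventually_ge_atTop 1] with n hn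
      have hl : 0 ≤ Real.log (n : ℝ) := Real.log_natCast_nonneg n
      have hn0 : (0 : ℝ) < n := by exact_mod_cast (by omega : 0 < n)
      simp only [Function.comp_apply]
      rw [mul_div_assoc]
      exact mul_le_mul_of_nonneg_right (by exact_mod_cast hD n) (by positivity)
  exact zero_ne_one (tendsto_nhds_unique e2 h2)

end Pool.Agent.Results.MP_77cbc6_nt.MetricChains
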