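import Pool.Agent.W2helper64.RK.Chain
import Pool.Agent.W2helper64.CUN.Fin

set_option autoImplicit false

/-!
# Exact Cunningham chains in the random sieve model of Banks, Ford and Tao

For every prime `p` a residue class `a p` modulo `p` is chosen uniformly and independently. The random
set `R` consists of the natural numbers `n ≥ e ^ 2` which avoid the class `a p` for every prime `p` with
`∏_(q ≤ p) (1 - 1 / q) ≥ 1 / log n`; this is the random sieve model for the primes of Banks, Ford and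
Tao, in which the classes `0 mod p` of the sieve of Eratosthenes are replaced by random ones. The class
`a 2` is `0` or `1`; in the first case `R` consists of odd numbers, as the primes do, in the second case
of even numbers, and there are no Cunningham chains `n, 2 n + 1` at all.

We prove that almost surely in the first case, for every `k`, the number of the `n ≤ x` which start a
chain of exact length `k` is asymptotic to `S_k x / (log x) ^ k`, with the constant `S_k > 0` of Hardy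
and Littlewood, and is given by their formula up to an error `O(x ^ (1 / 2 + ε))`; that chains of exact
length `k` occur in all intervals `(x, x + (log x) ^ C]` with large `x`, with `C` depending only on `k`;
and, more generally, that every finite set of positions is exactly the set of the `i ≤ M` with
`c_i(n) = 2 ^ i (n + 1) - 1 ∈ R` for some `n` in the interval.
-/

namespace Pool.Agent.Results.MP_77cbc6_nt.RandomSieveChains

open Filter MeasureTheory Topology

/-- the product `V y = ∏_(p ≤ y, p prime) (1 - 1 / p)` -/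
noncomputable def V (y : ℕ) : ℝ := ∏ p ∈ (Finset.Icc 1 y).filter Nat.Prime, (1 - 1 / (p : ℝ))

/-- the random set: all `n ≥ e ^ 2` outside the chosen class `a p` for every prime `p` with
`V p ≥ 1 / log n` -/
def R (a : (p : Nat.Primes) → ZMod (p : ℕ)) : Set ℕ :=
  {n | Real.exp 2 ≤ n ∧ ∀ p : Nat.Primes, 1 ≤ V (p : ℕ) * Real.log n → ((n : ℕ) : ZMod (p : ℕ)) ≠ a p}

/-- the chosen classes `a p`, `p` prime, are independent and uniform modulo `p` -/
noncomputable def law : Measure ((p : Nat.Primes) → ZMod (p : ℕ)) :=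
  Measure.infinitePi fun p : Nat.Primes => ProbabilityTheory.uniformOn (Set.univ : Set (ZMod (p : ℕ)))

/-- the prime two -/
def two : Nat.Primes := ⟨2, Nat.prime_two⟩

/-- the chain of the first kind: `c 0 n = n`, `c (i + 1) n = 2 * c i n + 1` -/
def c (i n : ℕ) : ℕ := 2 ^ i * (n + 1) - 1

/-- the number of the `1 ≤ n ≤ x` which start a chain of exact length `k`: `c 0 n, ..., c (k - 1) n ∈ R`
and `c k n ∉ R` -/
noncomputable def exact (k : ℕ) (a : (p : Nat.Primes) → ZMod (p : ℕ)) (x : ℕ) : ℕ :=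
  {n : ℕ | 1 ≤ n ∧ n ≤ x ∧ (∀ i < k, c i n ∈ R a) ∧ c k n ∉ R a}.ncard

/-- if `a 2 = 0`, the number of the classes `m` modulo `p` for which one of `c 0 m, ..., c (k - 1) m` is in
the class `a p` (see `nu_eq`): it is `1` for `p = 2` and for `a p = -1`, and otherwise the minimum of `k`
and the order of `2` modulo `p` -/
noncomputable def nu (k : ℕ) (a : (p : Nat.Primes) → ZMod (p : ℕ)) (p : Nat.Primes) : ℕ :=
  if (p : ℕ) = 2 ∨ a p = -1 then 1 else min k (orderOf (2 : ZMod (p : ℕ)))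

/-- the partial products of the constant of Hardy and Littlewood for chains of length `k` -/
noncomputable def series (k : ℕ) (a : (p : Nat.Primes) → ZMod (p : ℕ)) (z : ℕ) : ℝ :=
  ∏ p ∈ (Finset.Icc 1 z).subtype Nat.Prime, (1 - (nu k a p : ℝ) / (p : ℕ)) / (1 - 1 / ((p : ℕ) : ℝ)) ^ k

/-- the main term for chains of length `k` -/
noncomputable def L (k x : ℕ) : ℝ :=
  ∑ n ∈ Finset.Icc 8 x, ∏ i ∈ Finset.range k, (1 / Real.log (c i n))

theorem c_zero (n : ℕ) : c 0 n = n := by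
  unfold c
  omega

theorem c_succ (i n : ℕ) : c (i + 1) n = 2 * c i n + 1 := by
  unfold c
  have h : 1 ≤ 2 ^ i * (n + 1) := Nat.mul_pos (Nat.two_pow_pos _) (by omega)
  have h2 : 2 ^ (i + 1) * (n + 1) = 2 * (2 ^ i * (n + 1)) := by ring
  omega

theorem no_chain (a : (p : Nat.Primes) → ZMod (p : ℕ)) (ha : a two ≠ 0) (n i : ℕ) (hi : 1 ≤ i) :
    c i n ∉ R a := by
  rintro ⟨h1, h2⟩
  obtain ⟨j, rfl⟩ : ∃ j, i = j + 1 := ⟨i - 1, by omega⟩
  have h1a : a two = 1 := by
    have : ∀ z : ZMod 2, z ≠ 0 → z = 1 := by decide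
    exact this (a two) ha
  refine h2 two ?_ ?_
  · have hV : V ((two : Nat.Primes) : ℕ) = 1 / 2 := by
      unfold V
      have : (Finset.Icc 1 ((two : Nat.Primes) : ℕ)).filter Nat.Prime = {2} := by decide
      rw [this, Finset.prod_singleton]
      norm_num
    have h3 : 2 ≤ Real.log (c (j + 1) n) := by
      rw [← Real.log_exp 2]
      exact Real.log_le_log (Real.exp_pos 2) h1
    rw [hV]
    linarith
  · rw [h1a, c_succ]
    push_cast
    have : (2 : ZMod ((two : Nat.Primes) : ℕ)) = 0 := by decide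
    rw [this]
    ring

theorem positions (k : ℕ) : ∃ C : ℝ, ∀ᵐ a ∂law, a two = 0 → ∀ T : Finset ℕ, T.card ≤ k → ∀ M : ℕ,
    (∀ t ∈ T, t ≤ M) → ∀ᶠ x : ℕ in atTop, ∃ n : ℕ, x < n ∧ (n : ℝ) ≤ x + Real.log x ^ C ∧
      ∀ i ≤ M, (c i n ∈ R a ↔ i ∈ T) := by
  obtain ⟨C, -, h⟩ := Pool.Agent.W2helper64.RK.ae_chain k
  refine ⟨C, ?_⟩
  show ∀ᵐ a ∂Pool.Agent.W2helper64.RS.law, _
  filter_upwards [h] with a ha h2 T hT M hM
  filter_upwards [ha h2 T hT M] with x hx
  obtain ⟨n, h3, h4, h5, h6⟩ := hx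
  refine ⟨n, h3, h4, fun i hi => ⟨fun h => ?_, fun h => h5 i h⟩⟩
  by_contra hcon
  exact h6 i hi hcon h

theorem nu_eq (k : ℕ) (hk : 1 ≤ k) (a : (p : Nat.Primes) → ZMod (p : ℕ)) (ha : a two = 0) (p : Nat.Primes) :
    nu k a p = {m : ℕ | m < (p : ℕ) ∧ ∃ i < k, ((c i m : ℕ) : ZMod (p : ℕ)) = a p}.ncard := by
  classical
  have h := Pool.Agent.W2helper64.CUN.nuB_chain hk a ha p
  rw [Pool.Agent.W2helper64.BH.nuB_eq] at h
  show Pool.Agent.W2helper64.CUN.nu k a p = _
  rw [← h]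
  unfold Pool.Agent.W2helper64.BH.nuR
  rw [← Set.ncard_coe_finset]
  congr 1
  ext m
  rw [Finset.mem_coe, Pool.Agent.W2helper64.RK.mf', Finset.mem_range, Pool.Agent.W2helper64.BH.mem_Im]
  refine and_congr_right fun _ => ?_
  constructor
  · rintro ⟨i, hi⟩
    refine ⟨i, i.2, ?_⟩
    rw [← hi]
    unfold Pool.Agent.W2helper64.CUN.chS
    rw [Pool.Agent.W2helper64.CUN.chP_eval, ← Pool.Agent.W2helper64.CUN.c_cast, Int.cast_natCast]
    rfl
  · rintro ⟨i, hik, hi⟩
    refine ⟨⟨i, hik⟩, ?_⟩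
    rw [← hi]
    unfold Pool.Agent.W2helper64.CUN.chS
    rw [Pool.Agent.W2helper64.CUN.chP_eval, ← Pool.Agent.W2helper64.CUN.c_cast, Int.cast_natCast]
    rfl

theorem counts : ∀ᵐ a ∂law, a two = 0 → ∃ S : ℕ → ℝ, ∀ k : ℕ, 1 ≤ k →
    0 < S k ∧ Tendsto (series k a) atTop (𝓝 (S k)) ∧
    Tendsto (fun x : ℕ => (exact k a x : ℝ) * Real.log x ^ k / x) atTop (𝓝 (S k)) ∧
    ∀ ε : ℝ, 0 < ε → (fun x : ℕ => (exact k a x : ℝ) - (S k * L k x - S (k + 1) * L (k + 1) x)) =O[atTop]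
      fun x : ℕ => (x : ℝ) ^ (1 / 2 + ε) := by
  show ∀ᵐ a ∂Pool.Agent.W2helper64.RS.law, _
  filter_upwards [Pool.Agent.W2helper64.CUN.ae_exact] with a ha h2
  obtain ⟨S, hS⟩ := ha h2
  have h5 : ∀ k x : ℕ, exact k a x = Pool.Agent.W2helper64.CUN.ex k a x := by
    intro k x
    unfold exact Pool.Agent.W2helper64.CUN.ex
    rw [← Set.ncard_coe_finset]
    congr 1
    ext n
    rw [Finset.mem_coe, Pool.Agent.W2helper64.RK.mf', Finset.mem_Icc]
    exact ⟨fun h => ⟨⟨h.1, h.2.1⟩, h.2.2⟩, fun h => ⟨h.1.1, h.1.2, h.2⟩⟩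
  refine ⟨S, fun k hk => ?_⟩
  obtain ⟨p1, p2, p3, p4⟩ := hS k hk
  simp only [h5]
  refine ⟨p1, ?_, p3, p4⟩
  refine p2.congr fun z => ?_
  unfold series
  refine Finset.prod_congr ?_ fun p _ => rfl
  ext p
  rw [Pool.Agent.W2helper64.BH.mem_Pr]
  have h : p ∈ (Finset.Icc 1 z).subtype Nat.Prime ↔ (p : ℕ) ∈ Finset.Icc 1 z := Finset.mem_subtype
  refine Iff.trans ?_ h.symm
  rw [Finset.mem_Icc]
  omega

/-- * Almost surely, if `a 2 = 0`, for every `k ≥ 1` the products
`∏_(p ≤ z) (1 - ν_p / p) / (1 - 1 / p) ^ k` converge to some `S_k > 0`, and the number of the `n ≤ x` which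
start a chain of exact length `k` is asymptotic to `S_k x / (log x) ^ k`, and is equal to
`S_k L_k(x) - S_(k + 1) L_(k + 1)(x) + O(x ^ (1 / 2 + ε))` for every `ε > 0`.
* For every `k ≥ 1` there is `C` such that almost surely, if `a 2 = 0`, for all large `x` some `n`
with `x < n ≤ x + (log x) ^ C` starts a chain of exact length `k`: `c 0 n, ..., c (k - 1) n ∈ R` and
`c k n ∉ R`.
* For every `k` there is `C` such that almost surely, if `a 2 = 0`, for every set `T` of at most `k`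
positions, every `M ≥ max T` and all large `x` there is an `n` with `x < n ≤ x + (log x) ^ C` such that
for `i ≤ M` one has `c i n ∈ R` exactly for `i ∈ T`.
* If `a 2 ≠ 0`, then `c i n ∉ R` for all `n` and all `i ≥ 1`. -/
theorem result :
    (∀ᵐ a ∂law, a two = 0 → ∃ S : ℕ → ℝ, ∀ k : ℕ, 1 ≤ k →
      0 < S k ∧ Tendsto (series k a) atTop (𝓝 (S k)) ∧
      Tendsto (fun x : ℕ => (exact k a x : ℝ) * Real.log x ^ k / x) atTop (𝓝 (S k)) ∧
      ∀ ε : ℝ, 0 < ε → (fun x : ℕ => (exact k a x : ℝ) - (S k * L k x - S (k + 1) * L (k + 1) x)) =O[atTop]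
        fun x : ℕ => (x : ℝ) ^ (1 / 2 + ε)) ∧
    (∀ k : ℕ, 1 ≤ k → ∃ C : ℝ, ∀ᵐ a ∂law, a two = 0 → ∀ᶠ x : ℕ in atTop,
      ∃ n : ℕ, x < n ∧ (n : ℝ) ≤ x + Real.log x ^ C ∧ (∀ i < k, c i n ∈ R a) ∧ c k n ∉ R a) ∧
    (∀ k : ℕ, ∃ C : ℝ, ∀ᵐ a ∂law, a two = 0 → ∀ T : Finset ℕ, T.card ≤ k → ∀ M : ℕ,
      (∀ t ∈ T, t ≤ M) → ∀ᶠ x : ℕ in atTop, ∃ n : ℕ, x < n ∧ (n : ℝ) ≤ x + Real.log x ^ C ∧
        ∀ i ≤ M, (c i n ∈ R a ↔ i ∈ T)) ∧
    (∀ a : (p : Nat.Primes) → ZMod (p : ℕ), a two ≠ 0 → ∀ n i : ℕ, 1 ≤ i → c i n ∉ R a) := by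
  refine ⟨counts, fun k _ => ?_, positions, fun a ha n i hi => no_chain a ha n i hi⟩
  obtain ⟨C, hC⟩ := positions k
  refine ⟨C, ?_⟩
  filter_upwards [hC] with a ha h2
  filter_upwards [ha h2 (Finset.range k) (by simp) k (fun t ht => (Finset.mem_range.mp ht).le)] with x hx
  obtain ⟨n, h3, h4, h5⟩ := hx
  refine ⟨n, h3, h4, fun i hi => (h5 i hi.le).mpr (Finset.mem_range.mpr hi), fun h => ?_⟩
  exact absurd ((h5 k le_rfl).mp h) (by simp)

end Pool.Agent.Results.MP_77cbc6_nt.RandomSieveChains
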